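import Pool.Agent.Helper96.QT.Def

/-!
The Laplace transform of `FF`.
-/

namespace Pool.Agent.QT

open Real Filter Topology MeasureTheory Set DirichletCharacter

private lemma abs_a_le_12 {q : ℕ} [NeZero q] {χ : DirichletCharacter ℂ q} {a : ℕ → ℝ} (h : Dat χ a) (n : ℕ) :
    |a n| ≤ 1 := by
  have h1 : ‖(a n : ℂ)‖ ≤ 1 := by
    rw [h.eq n, norm_mul]
    refine mul_le_one₀ (DirichletCharacter.norm_le_one χ _) (norm_nonneg _) ?_
    have h2 := ArithmeticFunction.abs_moebius_le_one (n := n)
    rw [Complex.norm_intCast]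
    exact_mod_cast h2
  rwa [Complex.norm_real, Real.norm_eq_abs] at h1

private lemma abs_mS_le_12 {a : ℕ → ℝ} (ha : ∀ n, |a n| ≤ 1) {x : ℝ} (hx : 0 ≤ x) : |mS a x| ≤ x := by
  unfold mS
  calc |∑ n ∈ Finset.Icc 1 ⌊x⌋₊, a n| ≤ ∑ n ∈ Finset.Icc 1 ⌊x⌋₊, |a n| := Finset.abs_sum_le_sum_abs _ _
    _ ≤ ∑ n ∈ Finset.Icc 1 ⌊x⌋₊, (1:ℝ) := Finset.sum_le_sum fun n _ => ha n
    _ = (⌊x⌋₊ : ℝ) := by simp
    _ ≤ x := Nat.floor_le hx

theorem abs_FF_le {q : ℕ} [NeZero q] {χ : DirichletCharacter ℂ q} {a : ℕ → ℝ} (h : Dat χ a) (t : ℝ) :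
    |FF a t| ≤ Real.exp (t / 2) := by
  unfold FF
  split_ifs with ht
  · rw [abs_mul, abs_of_pos (Real.exp_pos _)]
    calc Real.exp (-(t / 2)) * |mS a (Real.exp t)| ≤ Real.exp (-(t / 2)) * Real.exp t := by
          gcongr
          exact abs_mS_le_12 (abs_a_le_12 h) (Real.exp_pos t).le
      _ = Real.exp (t / 2) := by
          rw [← Real.exp_add]
          congr 1
          ring
  · rw [abs_zero]
    exact (Real.exp_pos _).le

theorem measurable_FF (a : ℕ → ℝ) : Measurable (FF a) := by
  unfold FF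
  refine Measurable.ite measurableSet_Ici ?_ measurable_const
  refine Measurable.mul (by fun_prop) ?_
  have h1 : Measurable (fun n : ℕ => ∑ k ∈ Finset.Icc 1 n, a k) := measurable_from_nat
  have h2 : Measurable (fun t : ℝ => ⌊Real.exp t⌋₊) := Nat.measurable_floor.comp Real.measurable_exp
  exact h1.comp h2

theorem laplace_F {q : ℕ} [NeZero q] {χ : DirichletCharacter ℂ q} {a : ℕ → ℝ} (h : Dat χ a) {z : ℂ} (hz : 1 / 2 < z.re) :
    Integrable (fun t : ℝ => Complex.exp (-z * t) * (FF a t : ℂ)) ∧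
      ∫ t : ℝ, Complex.exp (-z * t) * (FF a t : ℂ) = GG χ z := by
  have hz0 : ∀ t : ℝ, t ∉ Ici (0:ℝ) → Complex.exp (-z * t) * (FF a t : ℂ) = 0 := by
    intro t ht
    have ht' : ¬ (0 ≤ t) := ht
    simp [FF, ht']
  have hmeas : Measurable (fun t : ℝ => Complex.exp (-z * t) * (FF a t : ℂ)) := by
    refine Measurable.mul (by fun_prop) ?_
    exact Complex.measurable_ofReal.comp (measurable_FF a)
  constructor
  · have hI : Integrable (fun t : ℝ => (Ioi (0:ℝ)).indicator (fun t : ℝ => Real.exp (-(z.re - 1 / 2) * t)) t) := by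
      rw [integrable_indicator_iff measurableSet_Ioi]
      exact exp_neg_integrableOn_Ioi 0 (by linarith)
    refine Integrable.mono' hI hmeas.aestronglyMeasurable ?_
    have hne : ∀ᵐ t : ℝ, t ≠ 0 := by
      rw [ae_iff]
      simp
    filter_upwards [hne] with t ht
    rcases lt_or_gt_of_ne ht with h1 | h1
    · rw [hz0 t (by simpa using h1)]
      simp [h1.le]
    · have hmem : t ∈ Ioi (0:ℝ) := h1
      rw [indicator_of_mem hmem, norm_mul, Complex.norm_exp, Complex.norm_real, Real.norm_eq_abs]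
      calc Real.exp (-z * t).re * |FF a t| ≤ Real.exp (-z * t).re * Real.exp (t / 2) := by
            gcongr
            exact abs_FF_le h t
        _ = Real.exp (-(z.re - 1 / 2) * t) := by
            rw [← Real.exp_add]
            congr 1
            simp
            ring
  · set s : ℂ := 1 / 2 + z with hs
    have hsre : (1:ℝ) < s.re := by
      rw [hs]
      simp
      linarith
    have hs0 : s ≠ 0 := by
      intro h0
      rw [h0] at hsre
      simp at hsre
      linarith
    have hO : (fun n : ℕ => ∑ k ∈ Finset.Icc 1 n, ‖(a k : ℂ)‖) =O[atTop] fun n : ℕ => (n : ℝ) ^ (1:ℝ) := by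
      refine Asymptotics.IsBigO.of_bound 1 (Eventually.of_forall fun n => ?_)
      rw [Real.rpow_one, one_mul, Real.norm_eq_abs, Real.norm_eq_abs, abs_of_nonneg (Finset.sum_nonneg fun _ _ => norm_nonneg _),
        abs_of_nonneg (Nat.cast_nonneg n)]
      calc ∑ k ∈ Finset.Icc 1 n, ‖(a k : ℂ)‖ ≤ ∑ k ∈ Finset.Icc 1 n, (1:ℝ) := by
            refine Finset.sum_le_sum fun k _ => ?_
            rw [Complex.norm_real, Real.norm_eq_abs]
            exact abs_a_le_12 h k
        _ = n := by simp
    have hL := LSeries_eq_mul_integral' (fun n => (a n : ℂ)) (zero_le_one) hsre hO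
    have h3 := DirichletCharacter.LSeries.mul_mu_eq_one χ hsre
    have h4 : LSeries (fun n => (a n : ℂ)) s = LSeries ((fun n : ℕ => χ n) *
        (fun n : ℕ => ((ArithmeticFunction.moebius n : ℤ) : ℂ))) s := by
      refine LSeries_congr (fun {n} _ => ?_) s
      rw [h.eq n]
      rfl
    have h5 : LFunction χ s * LSeries (fun n => (a n : ℂ)) s = 1 := by
      rw [DirichletCharacter.LFunction_eq_LSeries χ hsre, h4]
      exact h3
    have hsub : ∫ t in Ioi (1 : ℝ), (∑ k ∈ Finset.Icc 1 ⌊t⌋₊, (a k : ℂ)) * (t : ℂ) ^ (-(s + 1)) =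
        ∫ t in Ioi (0:ℝ), Complex.exp (-z * t) * (FF a t : ℂ) := by
      have himg : Real.exp '' (Ioi (0:ℝ)) = Ioi 1 := by
        ext x
        constructor
        · rintro ⟨t, ht, rfl⟩
          exact Real.one_lt_exp_iff.mpr ht
        · intro hx
          have hx1 : (1:ℝ) < x := hx
          exact ⟨Real.log x, Real.log_pos hx1, Real.exp_log (by linarith)⟩
      rw [← himg, integral_image_eq_integral_abs_deriv_smul measurableSet_Ioi
        (fun x _ => (Real.hasDerivAt_exp x).hasDerivWithinAt) Real.exp_injective.injOn]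
      refine setIntegral_congr_fun measurableSet_Ioi fun t ht => ?_
      have ht0 : (0:ℝ) ≤ t := le_of_lt ht
      simp only [FF, if_pos ht0, mS]
      rw [abs_of_pos (Real.exp_pos t), Complex.real_smul]
      have hc : ((Real.exp t : ℝ) : ℂ) ^ (-(s + 1)) = Complex.exp (t * (-(s + 1))) := by
        rw [Complex.cpow_def_of_ne_zero (by exact_mod_cast (Real.exp_pos t).ne'), ← Complex.ofReal_log (Real.exp_pos t).le,
          Real.log_exp]
      rw [hc]
      push_cast
      have he : Complex.exp (-z * t) * Complex.exp (-(t / 2)) = Complex.exp t * Complex.exp (t * (-(s + 1))) := by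
        rw [← Complex.exp_add, ← Complex.exp_add]
        congr 1
        rw [hs]
        ring
      rw [← mul_assoc (Complex.exp (-z * t)), he]
      ring
    have hfull : ∫ t : ℝ, Complex.exp (-z * t) * (FF a t : ℂ) = ∫ t in Ioi (0:ℝ), Complex.exp (-z * t) * (FF a t : ℂ) := by
      rw [← integral_Ici_eq_integral_Ioi, setIntegral_eq_integral_of_forall_compl_eq_zero hz0]
    rw [hfull, ← hsub]
    have hLs : LSeries (fun n => (a n : ℂ)) s ≠ 0 := by
      intro h0
      rw [h0, mul_zero] at h5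
      exact zero_ne_one h5
    have hLF : LFunction χ s ≠ 0 := by
      intro h0
      rw [h0, zero_mul] at h5
      exact zero_ne_one h5
    unfold GG
    rw [← hs, eq_div_iff (mul_ne_zero hs0 hLF)]
    rw [hL] at h5
    linear_combination h5

end Pool.Agent.QT
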